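import Mathlib
import Pool.Agent.H.MP_9eaa6a_an.Pert

set_option autoImplicit false
open MeasureTheory Set Filter Topology

namespace Pool.Agent.Results.MP_9eaa6a_an.NotStable

/-- the 2-torus -/
abbrev T2 := UnitAddCircle × UnitAddCircle

/-- the covering map `ℝ² → 𝕋²` -/
def proj (z : ℝ × ℝ) : T2 := ((z.1 : UnitAddCircle), (z.2 : UnitAddCircle))

/-- `f` is a non-invertible `C^∞` local diffeomorphism of the torus with lift `F`, preserving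
Lebesgue measure -/
def IsEnd (f : T2 → T2) (F : ℝ × ℝ → ℝ × ℝ) : Prop :=
  ContDiff ℝ (⊤ : ℕ∞) F ∧ (∀ z, f (proj z) = proj (F z)) ∧ (∀ z, (fderiv ℝ F z).det ≠ 0) ∧
    ¬ Function.Injective f ∧ MeasurePreserving f volume volume

/-- the conorm -/
noncomputable def conorm (A : ℝ × ℝ →L[ℝ] ℝ × ℝ) : ℝ := ⨅ v : {v : ℝ × ℝ // ‖v‖ = 1}, ‖A v‖

theorem result : ∃ (f : T2 → T2) (F : ℝ × ℝ → ℝ × ℝ), IsEnd f F ∧ Ergodic f volume ∧
    (∃ x, Dense (range fun n : ℕ => f^[n] x)) ∧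
    (∃ a b : ℝ, a < 0 ∧ 0 < b ∧ ∀ᵐ z : ℝ × ℝ,
      Tendsto (fun n : ℕ => (1 / (n : ℝ)) * Real.log (conorm (fderiv ℝ F^[n] z))) atTop (𝓝 a) ∧
      Tendsto (fun n : ℕ => (1 / (n : ℝ)) * Real.log ‖fderiv ℝ F^[n] z‖) atTop (𝓝 b)) ∧
    ∀ ε > 0, ∃ (g : T2 → T2) (G : ℝ × ℝ → ℝ × ℝ), IsEnd g G ∧
      (∀ z, ‖G z - F z‖ < ε ∧ ‖fderiv ℝ G z - fderiv ℝ F z‖ < ε) ∧ ¬ Ergodic g volume := by
  obtain ⟨K, k1, k2⟩ := H.Flex.exists_sk (s := 1 / 4) (l := 1 / 2) (by norm_num) (by norm_num)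
    (by linarith [Real.log_two_gt_d9])
  have hE : ∀ K : H.Flex.Sk0, IsEnd K.f K.F := fun K =>
    ⟨K.F_sm.1, K.f_π, K.det_ne, K.not_inj, K.f_mp⟩
  have he : Ergodic K.f volume := by simpa using K.f_erg one_pos
  refine ⟨K.f, K.F, hE _, he, H.Flex.dense_orbit he,
    ⟨K.ent - K.lam, K.lam, by rw [k1, k2]; norm_num, by rw [k1]; norm_num, ?_⟩, fun ε hε => ?_⟩
  · filter_upwards [K.exps' he (by rw [k1, k2]; norm_num)] with z hz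
    exact ⟨hz.2, hz.1⟩
  · obtain ⟨K', h1, y, hy, h2⟩ := K.pert hε
    exact ⟨K'.f, K'.F, hE _, h1, K'.not_erg hy h2⟩

end Pool.Agent.Results.MP_9eaa6a_an.NotStable
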